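import Pool.Agent.T2h33.LC.All

/-!
# A right-continuous peacock with two Markovian limit curtain processes

The peacock is piecewise constant on `[0, 1)`, with jumps at the times `1 - 2^(-k)`, and it has one more
jump at the time `1`. On `[1 - 2^(-k), 1 - 2^(-k-1))` the marginal has an atom at `1` and two atoms
at `a (k+1) < a k`, where `a k = 2^(-k-1)`, of the masses `m (k+1)` and `m k`, where
`m k (1 - a k) = 3/10`. The left-curtain coupling of two consecutive marginals does not move the left
atom and sends the right one to `a (k+2)` and `1`, so that the two particles exchange their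
order in every step. At the time `1` the final marginal `3/20 δ_{-1} + 3/10 δ_0 + 11/20 δ_1` separates
them: the left one goes to `0` or `1`, the right one to `-1` or `1`. Along the dyadic
partitions of even level it is one of the two particles which goes to `0`, along those of odd
level it is the other one; both limits are Markov processes.

Parts of the formal proof were written by helper9, helper47, helper55, helper69, helper71, helper99 and
helper33 (files `Pool/Agent/T2h33/LC`).
-/

set_option autoImplicit false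

open MeasureTheory ProbabilityTheory Filter Topology Set
open scoped NNReal ENNReal unitInterval

namespace Pool.Agent.Results.MP_eb43e0_pr.TwoMarkovLimits

/-- `x : [0, 1] → ℝ` is right-continuous and has left limits. -/
def IsCadlag (x : I → ℝ) : Prop :=
  ∀ t : I, ContinuousWithinAt x (Ici t) t ∧ ∃ l : ℝ, Tendsto x (𝓝[<] t) (𝓝 l)

/-- The space `D([0, 1])`. As a subtype of `I → ℝ` it carries the σ-algebra generated by the
coordinates, which is the Borel σ-algebra of the Skorokhod topology. -/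
abbrev D01 : Type := {x : I → ℝ // IsCadlag x}

/-- Skorokhod's distance: the infimum, over the increasing bijections `φ` of `[0, 1]`, of
`max (sup |φ t - t|) (sup |x (φ t) - y t|)`. -/
noncomputable def skd (x y : D01) : ℝ≥0∞ :=
  ⨅ φ : I ≃o I, max (⨆ t : I, edist (φ t) t) (⨆ t : I, edist (x.1 (φ t)) (y.1 t))

/-- Continuity of a real function on `D([0, 1])` for the Skorokhod topology. -/
def SkCont (F : D01 → ℝ) : Prop :=
  ∀ x : D01, ∀ ε : ℝ, 0 < ε → ∃ δ : ℝ, 0 < δ ∧ ∀ y : D01, skd y x < ENNReal.ofReal δ → |F y - F x| < ε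

/-- Weak convergence of laws on `D([0, 1])` for the Skorokhod topology. -/
def WeakLim (Pn : ℕ → Measure D01) (P : Measure D01) : Prop :=
  ∀ F : D01 → ℝ, SkCont F → (∃ C : ℝ, ∀ x, |F x| ≤ C) →
    Tendsto (fun n => ∫ x, F x ∂(Pn n)) atTop (𝓝 (∫ x, F x ∂P))

/-- The convex order, for finite measures with finite first moment. -/
def CvxLE (α η : Measure ℝ) : Prop :=
  α univ = η univ ∧ ∀ f : ℝ → ℝ, ConvexOn ℝ univ f → Integrable f α → Integrable f η →
    ∫ x, f x ∂α ≤ ∫ x, f x ∂η

/-- The Kantorovich distance: the infimum of `∫ |x - y|` over all couplings. -/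
noncomputable def kant (α η : Measure ℝ) : ℝ≥0∞ :=
  ⨅ (π : Measure (ℝ × ℝ)) (_ : π.map Prod.fst = α ∧ π.map Prod.snd = η), ∫⁻ p, edist p.1 p.2 ∂π

/-- Peacocks: families of probability measures with finite first moment which increase for the
convex order. -/
def IsPeacock (μ : I → Measure ℝ) : Prop :=
  (∀ t, IsProbabilityMeasure (μ t) ∧ Integrable (fun x => x) (μ t)) ∧
    ∀ s t, s ≤ t → CvxLE (μ s) (μ t)

/-- Right-continuity for the Kantorovich distance. -/
def RightCont (μ : I → Measure ℝ) : Prop :=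
  ∀ t : I, Tendsto (fun s => kant (μ s) (μ t)) (𝓝[≥] t) (𝓝 0)

/-- `η` is the shadow of `α` in `ν`: the least measure, for the convex order, among the
`η' ≤ ν` with `α ≤ η'` in the convex order. -/
def IsShadow (ν α η : Measure ℝ) : Prop :=
  η ≤ ν ∧ CvxLE α η ∧ ∀ η' : Measure ℝ, η' ≤ ν → CvxLE α η' → CvxLE η η'

/-- `π` is a martingale coupling of `μ` and `ν`. -/
def IsMC (μ ν : Measure ℝ) (π : Measure (ℝ × ℝ)) : Prop :=
  π.map Prod.fst = μ ∧ π.map Prod.snd = ν ∧
    ∀ B : Set ℝ, MeasurableSet B → ∫ p in Prod.fst ⁻¹' B, p.2 ∂π = ∫ p in Prod.fst ⁻¹' B, p.1 ∂π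

/-- `π` is the left-curtain coupling of `μ` and `ν`: a martingale coupling whose restriction to
`(-∞, x] × ℝ` has the marginals `μ|(-∞, x]` and the shadow of `μ|(-∞, x]` in `ν`, for every `x`. -/
def IsCurt (μ ν : Measure ℝ) (π : Measure (ℝ × ℝ)) : Prop :=
  IsMC μ ν π ∧ ∀ x : ℝ, (π.restrict (Prod.fst ⁻¹' Iic x)).map Prod.fst = μ.restrict (Iic x) ∧
    IsShadow ν (μ.restrict (Iic x)) ((π.restrict (Prod.fst ⁻¹' Iic x)).map Prod.snd)

/-- Partitions `0 = t 0 < … < t Q = 1` of `[0, 1]`. -/
structure Part where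
  Q : ℕ
  t : Fin (Q + 1) → I
  mono : StrictMono t
  zero : t 0 = 0
  one : t (Fin.last Q) = 1

/-- The mesh of the partitions tends to zero. -/
def MeshLim (τ : ℕ → Part) : Prop :=
  ∀ ε : ℝ, 0 < ε → ∀ᶠ n in atTop, ∀ k : Fin (τ n).Q, ((τ n).t k.succ : ℝ) - (τ n).t k.castSucc < ε

/-- The σ-algebra of the past at time `s`, generated by the `X_r`, `r ≤ s`. -/
@[reducible] def past (s : I) : MeasurableSpace D01 :=
  ⨆ (r : I) (_ : r ≤ s), MeasurableSpace.comap (fun x : D01 => x.1 r) inferInstance

/-- The σ-algebra generated by `X_s`. -/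
@[reducible] def present (s : I) : MeasurableSpace D01 :=
  MeasurableSpace.comap (fun x : D01 => x.1 s) inferInstance

/-- The canonical process is a Markov process under `P`. -/
def IsMarkov (P : Measure D01) : Prop :=
  ∀ s u : I, s ≤ u → ∀ B : Set ℝ, MeasurableSet B →
    P[indicator {x : D01 | x.1 u ∈ B} (fun _ => (1 : ℝ)) | past s] =ᵐ[P]
      P[indicator {x : D01 | x.1 u ∈ B} (fun _ => (1 : ℝ)) | present s]

/-- `P` is the law `P^(μ, τ)`: the canonical process is a Markov process, almost surely constant on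
the cells of the partition `τ`, and the pairs of its values at consecutive times of `τ` have as law
the left-curtain coupling. -/
def IsPsi (μ : I → Measure ℝ) (τ : Part) (P : Measure D01) : Prop :=
  IsProbabilityMeasure P ∧ IsMarkov P ∧
    (∀ k : Fin τ.Q, ∀ᵐ x : D01 ∂P, ∀ s : I, τ.t k.castSucc ≤ s → s < τ.t k.succ →
      x.1 s = x.1 (τ.t k.castSucc)) ∧
    ∀ k : Fin τ.Q, IsCurt (μ (τ.t k.castSucc)) (μ (τ.t k.succ))
      (P.map fun x : D01 => (x.1 (τ.t k.castSucc), x.1 (τ.t k.succ)))

/-- The set of the limit curtain processes of the peacock `μ`. -/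
def LimCurt (μ : I → Measure ℝ) : Set (Measure D01) :=
  {P | IsProbabilityMeasure P ∧ ∃ (τ : ℕ → Part) (Pn : ℕ → Measure D01), MeshLim τ ∧
    (∀ n, IsPsi μ (τ n) (Pn n)) ∧ WeakLim Pn P}

/-- There is a right-continuous peacock `μ` such that `LimCurt μ` contains two different laws under
which the canonical process is a Markov process. -/
theorem result : ∃ μ : I → Measure ℝ, IsPeacock μ ∧ RightCont μ ∧
    ∃ P P' : Measure D01, P ≠ P' ∧ P ∈ LimCurt μ ∧ P' ∈ LimCurt μ ∧ IsMarkov P ∧ IsMarkov P' := by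
  obtain ⟨μ, h1, h2, P, P', h3, ⟨h4, τ, Pn, h5, h6, h7⟩, ⟨h8, τ', Pn', h9, h10, h11⟩, h12, h13⟩ :=
    Pool.Agent.T2h33.LC.fin
  refine ⟨μ, h1, h2, P, P', h3,
    ⟨h4, fun n => ⟨(τ n).Q, (τ n).t, (τ n).mono, (τ n).zero, (τ n).one⟩, Pn, h5, fun n => h6 n, h7⟩,
    ⟨h8, fun n => ⟨(τ' n).Q, (τ' n).t, (τ' n).mono, (τ' n).zero, (τ' n).one⟩, Pn', h9, fun n => h10 n,
      h11⟩, h12, h13⟩

end Pool.Agent.Results.MP_eb43e0_pr.TwoMarkovLimits
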